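import Pool.Agent.X143.SD.Stm

set_option autoImplicit false

open Finset

namespace Pool.Agent.X240.SD

open Pool.Agent.X143.SD

lemma cc_nonneg (s : ℝ) : 0 ≤ cc s := by
  unfold cc
  have h1 : s + 1 ≤ Real.exp s := Real.add_one_le_exp s
  have h2 : (1 + s) * Real.exp (-s) ≤ Real.exp s * Real.exp (-s) := by
    apply mul_le_mul_of_nonneg_right _ (Real.exp_pos _).le
    linarith
  rw [← Real.exp_add, add_neg_cancel, Real.exp_zero] at h2
  linarith

lemma cc_deriv (s : ℝ) : HasDerivAt cc (s * Real.exp (-s)) s := by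
  have h1 : HasDerivAt (fun u : ℝ => Real.exp (-u)) (Real.exp (-s) * (-1)) s :=
    (hasDerivAt_neg s).exp
  have h2 : HasDerivAt (fun u : ℝ => 1 + u) 1 s := (hasDerivAt_id s).const_add 1
  have h3 := (h2.mul h1).const_sub 1
  have e : -(1 * Real.exp (-s) + (1 + s) * (Real.exp (-s) * -1)) = s * Real.exp (-s) := by ring
  rw [e] at h3
  exact h3

lemma cc_cont : Continuous cc := by
  unfold cc
  fun_prop

lemma cc_mono : MonotoneOn cc (Set.Ici 0) := by
  apply monotoneOn_of_deriv_nonneg (convex_Ici 0) cc_cont.continuousOn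
  · exact fun x _ => (cc_deriv x).differentiableAt.differentiableWithinAt
  · intro x hx
    rw [interior_Ici] at hx
    rw [(cc_deriv x).deriv]
    have : 0 < x := hx
    positivity

lemma PP_ge {d : ℕ} (hd : 1 ≤ d) {x : ℝ} (hx : 0 ≤ x) : 1 ≤ PP d x := by
  unfold PP
  obtain ⟨k, rfl⟩ : ∃ k, d = k + 1 := ⟨d - 1, by omega⟩
  rw [sum_range_succ']
  have : 0 ≤ ∑ j ∈ range k, x ^ (j + 1) := sum_nonneg fun j _ => by positivity
  simpa using this

lemma PP_mul (d : ℕ) (x : ℝ) : (1 - x) * PP d x = 1 - x ^ d := by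
  unfold PP
  exact mul_neg_geom_sum x d

lemma TT_deriv {d : ℕ} (hd : 1 ≤ d) (s : ℝ) : HasDerivAt (TT d) (1 / PP d (cc s)) s := by
  have hc : Continuous fun s => 1 / PP d (cc s) := by
    apply Continuous.div continuous_const
    · unfold PP
      exact continuous_finset_sum _ fun j _ => cc_cont.pow j
    · intro x
      have := PP_ge hd (cc_nonneg x)
      linarith
  exact (hc.integral_hasStrictDerivAt 0 s).hasDerivAt

lemma TT_mono {d : ℕ} (hd : 1 ≤ d) : Monotone (TT d) := by
  apply monotone_of_deriv_nonneg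
  · exact fun x => (TT_deriv hd x).differentiableAt
  · intro x
    rw [(TT_deriv hd x).deriv]
    have := PP_ge hd (cc_nonneg x)
    positivity

/-- the comparison function -/
noncomputable def W (d : ℕ) (s : ℝ) : ℝ :=
  -Real.log (1 - cc s ^ d) / d - 2 * (cc s ^ d / d - cc s ^ (d + 1) / (d + 1))

lemma W_deriv {d : ℕ} (hd : 1 ≤ d) (s : ℝ) (hs : cc s ^ d < 1) :
    HasDerivAt (W d) (cc s ^ (d - 1) * (s * Real.exp (-s)) / (1 - cc s ^ d) -
      2 * (cc s ^ (d - 1) * (s * Real.exp (-s)) * (1 - cc s))) s := by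
  have hd0 : (d : ℝ) ≠ 0 := by
    have : (1 : ℝ) ≤ d := by exact_mod_cast hd
    linarith
  have hd1 : (d : ℝ) + 1 ≠ 0 := by positivity
  have hne : 1 - cc s ^ d ≠ 0 := by linarith
  have h1 : HasDerivAt (fun u => cc u ^ d) ((d : ℝ) * cc s ^ (d - 1) * (s * Real.exp (-s))) s :=
    (cc_deriv s).pow d
  have h2 : HasDerivAt (fun u => cc u ^ (d + 1))
      (((d + 1 : ℕ) : ℝ) * cc s ^ (d + 1 - 1) * (s * Real.exp (-s))) s := (cc_deriv s).pow (d + 1)
  have h3 := ((h1.const_sub 1).log hne)
  have h4 := (h3.neg.div_const (d : ℝ)).sub (((h1.div_const (d : ℝ)).sub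
    (h2.div_const ((d : ℝ) + 1))).const_mul 2)
  refine h4.congr_deriv ?_
  have hpow : cc s ^ d = cc s ^ (d - 1) * cc s := by
    rw [← pow_succ]; congr 1; omega
  simp only [Nat.add_sub_cancel, Nat.cast_add, Nat.cast_one]
  have hne' : 1 - cc s ^ (d - 1) * cc s ≠ 0 := by rw [← hpow]; exact hne
  rw [hpow]
  field_simp
  try ring

theorem main_ineq {d : ℕ} (hd : 1 ≤ d) (h : ℝ) (hh : 0 < h) (hc : cc h ^ d = 1 / 2) :
    2 - (2 + h) * Real.exp (-h) + (1 + h) / h * W d h ≤ TT d h := by
  have hle : ∀ s ∈ Set.Icc 0 h, cc s ^ d ≤ 1 / 2 := by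
    intro s hs
    rw [← hc]
    exact pow_le_pow_left₀ (cc_nonneg s) (cc_mono hs.1 hh.le hs.2) d
  set Φ : ℝ → ℝ := fun s => TT d s - 2 + (2 + s) * Real.exp (-s) - (1 + h) / h * W d s with hΦ
  have hder : ∀ s ∈ Set.Icc 0 h, HasDerivAt Φ (1 / PP d (cc s) +
      (1 * Real.exp (-s) + (2 + s) * (Real.exp (-s) * -1)) -
      (1 + h) / h * (cc s ^ (d - 1) * (s * Real.exp (-s)) / (1 - cc s ^ d) -
      2 * (cc s ^ (d - 1) * (s * Real.exp (-s)) * (1 - cc s)))) s := by
    intro s hs
    have h1 : HasDerivAt (fun u : ℝ => Real.exp (-u)) (Real.exp (-s) * (-1)) s :=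
      (hasDerivAt_neg s).exp
    have h2 : HasDerivAt (fun u : ℝ => 2 + u) 1 s := (hasDerivAt_id s).const_add 2
    exact ((((TT_deriv hd s).sub_const 2).add (h2.mul h1)).sub
      ((W_deriv hd s (by linarith [hle s hs])).const_mul _))
  have hmono : MonotoneOn Φ (Set.Icc 0 h) := by
    apply monotoneOn_of_deriv_nonneg (convex_Icc 0 h)
    · exact fun s hs => (hder s hs).continuousAt.continuousWithinAt
    · intro s hs
      exact (hder s (interior_subset hs)).differentiableAt.differentiableWithinAt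
    · intro s hs
      rw [interior_Icc] at hs
      have hsI : s ∈ Set.Icc 0 h := ⟨hs.1.le, hs.2.le⟩
      rw [(hder s hsI).deriv]
      set c := cc s with hcs
      have hc0 : 0 ≤ c := cc_nonneg s
      have hx := hle s hsI
      rw [← hcs] at hx
      have hB : 1 - c = (1 + s) * Real.exp (-s) := by rw [hcs]; unfold cc; ring
      have hs0 : 0 < s := hs.1
      have he : 0 < Real.exp (-s) := Real.exp_pos _
      have hBpos : 0 < 1 - c := by rw [hB]; positivity
      have hden : 0 < 1 - c ^ d := by linarith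
      have hPP : 1 / PP d c = (1 - c) / (1 - c ^ d) := by
        rw [← PP_mul d c]
        have : PP d c ≠ 0 := by
          have := PP_ge hd hc0
          linarith
        field_simp
      have hpow : c ^ d = c ^ (d - 1) * c := by
        rw [← pow_succ]; congr 1; omega
      have hk : (1 + h) / h * (s * Real.exp (-s)) ≤ 1 - c := by
        rw [hB, div_mul_eq_mul_div, div_le_iff₀ hh]
        have : s ≤ h := hs.2.le
        nlinarith
      have hk0 : 0 ≤ (1 + h) / h * (s * Real.exp (-s)) := by positivity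
      have hE : c ^ (d - 1) / (1 - c ^ d) - 2 * (c ^ (d - 1) * (1 - c)) ≤ c ^ d / (1 - c ^ d) := by
        have e1 : c ^ (d - 1) / (1 - c ^ d) - c ^ d / (1 - c ^ d) =
            c ^ (d - 1) * (1 - c) * (1 / (1 - c ^ d)) := by
          rw [← sub_div, hpow]; ring
        have e2 : 1 / (1 - c ^ d) ≤ 2 := by
          rw [div_le_iff₀ hden]; linarith
        have e3 : 0 ≤ c ^ (d - 1) * (1 - c) := by positivity
        have e4 := mul_le_mul_of_nonneg_left e2 e3
        linarith
      have hq : 0 ≤ c ^ d / (1 - c ^ d) := by positivity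
      have f1 := mul_le_mul_of_nonneg_left hE hk0
      have f2 := mul_le_mul_of_nonneg_right hk hq
      have f3 : (1 - c) / (1 - c ^ d) = (1 - c) + (1 - c) * (c ^ d / (1 - c ^ d)) := by
        field_simp
        ring
      rw [hPP, f3]
      have f4 : (1 + h) / h * (c ^ (d - 1) * (s * Real.exp (-s)) / (1 - c ^ d) -
          2 * (c ^ (d - 1) * (s * Real.exp (-s)) * (1 - c))) =
          (1 + h) / h * (s * Real.exp (-s)) *
            (c ^ (d - 1) / (1 - c ^ d) - 2 * (c ^ (d - 1) * (1 - c))) := by ring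
      rw [f4]
      have f5 : 1 * Real.exp (-s) + (2 + s) * (Real.exp (-s) * -1) = -(1 - c) := by
        rw [hB]; ring
      rw [f5]
      linarith
  have h0 : Φ 0 = 0 := by
    rw [hΦ]
    have hc00 : cc 0 = 0 := by unfold cc; simp
    have hd0 : d ≠ 0 := by omega
    simp [TT, W, hc00, hd0]
  have := hmono (Set.left_mem_Icc.2 hh.le) (Set.right_mem_Icc.2 hh.le) hh.le
  rw [h0] at this
  simp only [hΦ] at this
  linarith

theorem t_BB : Pool.Agent.X143.SD.S_BB := by
  obtain ⟨d, hdd⟩ : ∃ d : ℕ, d = 1000 := ⟨_, rfl⟩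
  have hd : 1 ≤ d := by omega
  have hdr : (d : ℝ) = 1000 := by rw [hdd]; norm_num
  refine ⟨d, hd, fun u hu hT => ?_⟩
  by_contra hcon
  push Not at hcon
  have hcont : ContinuousOn (fun s => cc s ^ d) (Set.Icc 0 u) := (cc_cont.pow d).continuousOn
  have hd0 : d ≠ 0 := by omega
  have hmem : (1 / 2 : ℝ) ∈ Set.Icc (cc 0 ^ d) (cc u ^ d) := by
    refine ⟨?_, hcon⟩
    have : cc 0 = 0 := by unfold cc; simp
    rw [this, zero_pow hd0]; norm_num
  obtain ⟨h, ⟨hh0, hhu⟩, hhc⟩ := intermediate_value_Icc hu hcont hmem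
  have hhc' : cc h ^ d = 1 / 2 := hhc
  have hh : 0 < h := by
    rcases hh0.eq_or_lt with h1 | h1
    · rw [← h1] at hhc'
      have : cc 0 = 0 := by unfold cc; simp
      rw [this, zero_pow hd0] at hhc'
      norm_num at hhc'
    · exact h1
  have hM := main_ineq hd h hh hhc'
  have hTT := TT_mono hd hhu
  rw [hT] at hTT
  set c := cc h with hcdef
  have hc0 : 0 ≤ c := cc_nonneg h
  have hcpos : 0 < c := by
    rcases hc0.eq_or_lt with h1 | h1
    · rw [← h1, zero_pow hd0] at hhc'
      norm_num at hhc'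
    · exact h1
  have hB : 1 - c = (1 + h) * Real.exp (-h) := by rw [hcdef]; unfold cc; ring
  have hlog : (d : ℝ) * Real.log c = -Real.log 2 := by
    rw [← Real.log_pow, hhc', one_div, Real.log_inv]
  have hl1 := Real.log_two_gt_d9
  have hl2 := Real.log_two_lt_d9
  rw [hdr] at hlog
  have h1c : 1 - c ≤ Real.log 2 / 1000 := by
    have := Real.log_le_sub_one_of_pos hcpos
    linarith
  have hbern : 1 / 2000 ≤ 1 - c := by
    have := one_add_mul_le_pow (a := c - 1) (by linarith) d
    rw [add_sub_cancel, hhc', hdr] at this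
    linarith
  have h12 : h ≤ 12 := by
    by_contra hc12
    push Not at hc12
    have e1 : Real.exp h = Real.exp 1 ^ 12 * Real.exp (h - 12) := by
      rw [← Real.exp_nat_mul, ← Real.exp_add]; congr 1; push_cast; ring
    have e2 : (26000 : ℝ) ≤ Real.exp 1 ^ 12 := by
      have := Real.exp_one_gt_d9
      calc (26000 : ℝ) ≤ 2.7 ^ 12 := by norm_num
        _ ≤ Real.exp 1 ^ 12 := pow_le_pow_left₀ (by norm_num) (by linarith) 12
    have e3 : h - 12 + 1 ≤ Real.exp (h - 12) := Real.add_one_le_exp _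
    have e4 : 26000 * (h - 12 + 1) ≤ Real.exp h := by
      rw [e1]
      exact mul_le_mul e2 e3 (by linarith) (by positivity)
    have e5 : (1 + h) * Real.exp (-h) * 2000 < 1 := by
      rw [Real.exp_neg, mul_assoc, inv_mul_eq_div, ← mul_div_assoc, div_lt_one (Real.exp_pos _)]
      linarith
    rw [← hB] at e5
    linarith
  have hWh : W d h = Real.log 2 / 1000 - 1 / 1000 + c / 1001 := by
    unfold W
    rw [pow_succ, ← hcdef, hhc', hdr]
    have : (1 : ℝ) - 1 / 2 = 2⁻¹ := by norm_num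
    rw [this, Real.log_inv]
    ring
  rw [hWh] at hM
  have hV : (2 + h) * Real.exp (-h) = (1 - c) * ((2 + h) / (1 + h)) := by
    rw [hB]
    have : (1 + h) ≠ 0 := by positivity
    field_simp
  rw [hV] at hM
  have hfin : (1 - c) * ((2 + h) / (1 + h)) <
      (1 + h) / h * (Real.log 2 / 1000 - 1 / 1000 + c / 1001) := by
    rw [← mul_div_assoc, div_mul_eq_mul_div, div_lt_div_iff₀ (by positivity) hh]
    have g1 : (1 - c) * (2 + h) * h ≤ Real.log 2 / 1000 * (2 + h) * h := by
      apply mul_le_mul_of_nonneg_right _ hh.le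
      exact mul_le_mul_of_nonneg_right h1c (by positivity)
    have g2 : (1 + h) ^ 2 ≤ 169 := by nlinarith
    have g3 : -(17 / 10000000 : ℝ) ≤ -1 / 1000 + c / 1001 := by linarith
    have g4 : -(17 / 10000000 : ℝ) * (1 + h) ^ 2 ≤ (-1 / 1000 + c / 1001) * (1 + h) ^ 2 :=
      mul_le_mul_of_nonneg_right g3 (by positivity)
    nlinarith
  linarith

end Pool.Agent.X240.SD
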